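import Pool.Agent.TH342.TU.Fin

/-!
# One exceptional set for all the moments
-/

set_option autoImplicit false

namespace Pool.Agent.TH342.TU

open Finset Filter Pool.Agent.TH344.DT Pool.Agent.TH342.SQ

/-- **one exceptional set for all the moments** -/
theorem diag (L : ℕ) : ∃ E : ℤ → ℤ → ℕ → Finset (ℤ × ℤ), (∀ N1 N2 X, E N1 N2 X ⊆ Sq N1 N2 X) ∧
    (∀ η : ℝ, 0 < η → ∃ X0 : ℕ, ∀ X, X0 ≤ X → ∀ N1 N2 : ℤ, N1.natAbs ≤ X ^ L →
      N2.natAbs ≤ X ^ L → ((E N1 N2 X).card : ℝ) ≤ η * (Sq N1 N2 X).card) ∧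
    ∀ K : ℕ, 1 ≤ K → ∃ C : ℝ, 0 ≤ C ∧ ∀ (N1 N2 : ℤ) (X : ℕ), 1 ≤ X → N1.natAbs ≤ X ^ L →
      N2.natAbs ≤ X ^ L →
      ∑ t ∈ (Sq N1 N2 X).filter (fun t => t ∉ E N1 N2 X), MP K t ≤ C * (Sq N1 N2 X).card := by
  classical
  have hT : ∀ j : ℕ, ∃ T : Finset (Fin 3 → ℝ), (∀ t ∈ T, ∀ j, 0 < t j) ∧
      (∀ t ∈ T, 1 < ∏ j, t j) ∧ ∀ L : ℕ, ∃ C : ℝ, 0 ≤ C ∧ ∀ (N1 N2 : ℤ) (X : ℕ), 1 ≤ X →
      N1.natAbs ≤ X ^ L → N2.natAbs ≤ X ^ L →
      ∑ t ∈ (Sq N1 N2 X).filter (fun t => t ∉ Z T N1 N2 X), MP (j + 1) t ≤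
        C * (Sq N1 N2 X).card := fun j => sup_out (j + 1) (by omega)
  choose T hT1 hT2 hT3 using hT
  have hb : ∀ j m : ℕ, ∃ X0 : ℕ, ∀ X, X0 ≤ X → ∀ N1 N2 : ℤ, N1.natAbs ≤ X ^ L →
      N2.natAbs ≤ X ^ L → ((Z (T j) N1 N2 X).card : ℝ) ≤ 1 / ((m : ℝ) + 1) ^ 2 * X ^ 2 :=
    fun j m => bad (T j) (hT1 j) (hT2 j) L (1 / ((m : ℝ) + 1) ^ 2) (by positivity)
  choose x0 hx0 using hb
  obtain ⟨Y, hY⟩ : ∃ Y : ℕ → ℕ, ∀ m, Y m = ∑ j ∈ range (m + 1), x0 j m + m := ⟨_, fun _ => rfl⟩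
  have hYm : ∀ m, m ≤ Y m := fun m => by rw [hY]; omega
  have hYx : ∀ m j, j ≤ m → x0 j m ≤ Y m := by
    intro m j hj
    rw [hY]
    have := single_le_sum (f := fun j => x0 j m) (fun _ _ => Nat.zero_le _)
      (mem_range.2 (by omega : j < m + 1))
    omega
  refine ⟨fun N1 N2 X => (Sq N1 N2 X).filter
    (fun t => ∃ m, Y m ≤ X ∧ ∃ j, j ≤ m ∧ t ∈ Z (T j) N1 N2 X), fun N1 N2 X => filter_subset _ _,
    ?_, ?_⟩
  · intro η hη
    obtain ⟨m0, hm0⟩ := exists_nat_gt (36 / η)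
    refine ⟨Y m0, fun X hX N1 N2 hN1 hN2 => ?_⟩
    rcases (Sq N1 N2 X).eq_empty_or_nonempty with h0 | h0
    · have h1 : (Sq N1 N2 X).filter
          (fun t => ∃ m, Y m ≤ X ∧ ∃ j, j ≤ m ∧ t ∈ Z (T j) N1 N2 X) = ∅ := by
        rw [filter_eq_empty_iff]
        intro t ht
        rw [h0] at ht
        exact absurd ht (notMem_empty t)
      simp only [h1, card_empty, Nat.cast_zero]
      positivity
    set m := Nat.findGreatest (fun m => Y m ≤ X) X with hm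
    have hmX : Y m ≤ X := by
      have := Nat.findGreatest_spec (P := fun m => Y m ≤ X) ((hYm m0).trans hX) hX
      exact this
    have hm0m : m0 ≤ m := Nat.le_findGreatest ((hYm m0).trans hX) hX
    have hsub : (Sq N1 N2 X).filter
        (fun t => ∃ m, Y m ≤ X ∧ ∃ j, j ≤ m ∧ t ∈ Z (T j) N1 N2 X) ⊆
        (range (m + 1)).biUnion (fun j => Z (T j) N1 N2 X) := by
      intro t ht
      obtain ⟨_, m', hm', j, hj, hjt⟩ := mem_filter.1 ht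
      have h1 : m' ≤ m := Nat.le_findGreatest ((hYm m').trans hm') hm'
      rw [mem_biUnion]
      exact ⟨j, mem_range.2 (by omega), hjt⟩
    have h1 : ((((Sq N1 N2 X).filter
        (fun t => ∃ m, Y m ≤ X ∧ ∃ j, j ≤ m ∧ t ∈ Z (T j) N1 N2 X)).card : ℕ) : ℝ) ≤
        ∑ j ∈ range (m + 1), ((Z (T j) N1 N2 X).card : ℝ) := by
      exact_mod_cast (card_le_card hsub).trans card_biUnion_le
    have h2 : ∑ j ∈ range (m + 1), ((Z (T j) N1 N2 X).card : ℝ) ≤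
        ∑ j ∈ range (m + 1), 1 / ((m : ℝ) + 1) ^ 2 * (X : ℝ) ^ 2 := by
      refine sum_le_sum fun j hj => ?_
      have hj' : j ≤ m := by
        have := mem_range.1 hj
        omega
      exact hx0 j m X ((hYx m j hj').trans hmX) N1 N2 hN1 hN2
    have h3 := sq_le_card N1 N2 X h0
    have hm1 : (0 : ℝ) < (m : ℝ) + 1 := by positivity
    have h4 : 36 ≤ η * ((m : ℝ) + 1) := by
      rw [div_lt_iff₀ hη] at hm0
      have : (m0 : ℝ) ≤ m := by exact_mod_cast hm0m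
      nlinarith
    refine h1.trans (h2.trans ?_)
    rw [sum_const, card_range, nsmul_eq_mul]
    push_cast
    have h5 : ((m : ℝ) + 1) * (1 / ((m : ℝ) + 1) ^ 2 * (X : ℝ) ^ 2) =
        (X : ℝ) ^ 2 / ((m : ℝ) + 1) := by
      field_simp
    rw [h5, div_le_iff₀ hm1]
    have h6 : (0 : ℝ) ≤ (Sq N1 N2 X).card := Nat.cast_nonneg _
    nlinarith
  · intro K hK
    obtain ⟨j, rfl⟩ : ∃ j, K = j + 1 := ⟨K - 1, by omega⟩
    obtain ⟨C1, hC1, h1⟩ := hT3 j L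
    set R : ℤ := (((Y j) ^ L + Y j : ℕ) : ℤ) with hR
    set S : ℝ := ∑ t ∈ (Icc (-R) R) ×ˢ (Icc (-R) R), MP (j + 1) t with hS
    have hS0 : 0 ≤ S := sum_nonneg fun t _ => MP_nonneg _ t
    refine ⟨C1 + S, by positivity, fun N1 N2 X hX hN1 hN2 => ?_⟩
    have hc : (0 : ℝ) ≤ (Sq N1 N2 X).card := Nat.cast_nonneg _
    by_cases hXY : Y j ≤ X
    · refine le_trans (sum_le_sum_of_subset_of_nonneg
        (t := (Sq N1 N2 X).filter (fun t => t ∉ Z (T j) N1 N2 X)) ?_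
        fun t _ _ => MP_nonneg _ t) ((h1 N1 N2 X hX hN1 hN2).trans ?_)
      · intro t ht
        obtain ⟨ht1, ht2⟩ := mem_filter.1 ht
        refine mem_filter.2 ⟨ht1, fun h => ht2 ?_⟩
        exact mem_filter.2 ⟨ht1, j, hXY, j, le_rfl, h⟩
      · exact mul_le_mul_of_nonneg_right (by linarith) hc
    · push Not at hXY
      have hle : ∀ t ∈ Sq N1 N2 X, MP (j + 1) t ≤ S := by
        intro t ht
        obtain ⟨ht1, _⟩ := mem_filter.1 ht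
        rw [mem_product, mem_Ioc, mem_Ioc] at ht1
        have e1 : X ^ L ≤ (Y j) ^ L := Nat.pow_le_pow_left hXY.le L
        refine single_le_sum (f := fun t => MP (j + 1) t) (fun t _ => MP_nonneg _ t) ?_
        rw [mem_product, mem_Icc, mem_Icc, hR]
        refine ⟨⟨?_, ?_⟩, ?_, ?_⟩ <;> omega
      calc _ ≤ ∑ t ∈ Sq N1 N2 X, MP (j + 1) t :=
            sum_le_sum_of_subset_of_nonneg (filter_subset _ _) fun t _ _ => MP_nonneg _ t
        _ ≤ ∑ t ∈ Sq N1 N2 X, S := sum_le_sum hle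
        _ = (Sq N1 N2 X).card * S := by rw [sum_const, nsmul_eq_mul]
        _ ≤ _ := by nlinarith

/-- all the moments of all the multiplicities -/
theorem mult_MP {k n : ℕ} (hn : 1 ≤ n) {ε : ℝ} (hε : 2 ≤ ε * n) {a b d : ℤ} {F : Type}
    [Field F] [NumberField F] [IsGalois ℚ F] {r : F} (hd : d ≠ 0) (hr : r ^ 2 = (d : F))
    (χ : (F ≃ₐ[ℚ] F) →* ℤˣ) (hχ : ∀ σ : F ≃ₐ[ℚ] F, σ r = (((χ σ : ℤˣ) : ℤ) : F) * r) (ha : a ≠ 0)
    (hb : b ≠ 0) (hab : a ≠ b) :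
    (2 : ℝ) ^ (k * mult F χ (Eab a b)) ≤
      (1 + MP ((k + 1) * n) (a, b)) * (d.natAbs : ℝ) ^ ε := by
  have h0 : d * a ≠ d * b := fun h => hab (mul_left_cancel₀ hd h)
  have h1 := mult_le hd hr χ hχ (fin_ab (mul_ne_zero hd ha) (mul_ne_zero hd hb) h0)
  have h2 := (rank_le (mul_ne_zero hd ha) (mul_ne_zero hd hb) h0).2
  have h3 : ((2 : ℝ) ^ mult F χ (Eab a b)) ≤
      ((Pool.Agent.W307.SE.Sel (d * a) (d * b)).ncard : ℝ) := by
    exact_mod_cast (Nat.pow_le_pow_right (by norm_num) h1).trans h2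
  have h4 : ((2 : ℝ) ^ mult F χ (Eab a b)) ^ ((k + 1) * n) ≤ GP ((k + 1) * n) d (a, b) := by
    unfold GP
    rw [if_pos ⟨ha, hb, hab⟩]
    exact pow_le_pow_left₀ (by positivity) h3 _
  have h5 := GP_le_MP ((k + 1) * n) (a, b) hd
  have hD : (1 : ℝ) ≤ (d.natAbs : ℝ) := by exact_mod_cast Int.natAbs_pos.2 hd
  have hM := MP_nonneg ((k + 1) * n) (a, b)
  set m := mult F χ (Eab a b) with hm
  set M := MP ((k + 1) * n) (a, b) with hMdef
  have h6 : ((2 : ℝ) ^ (k * m)) ^ n ≤ ((1 + M) * (d.natAbs : ℝ) ^ ε) ^ n := by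
    have e1 : ((2 : ℝ) ^ (k * m)) ^ n ≤ ((2 : ℝ) ^ m) ^ ((k + 1) * n) := by
      rw [← pow_mul, ← pow_mul]
      apply pow_le_pow_right₀ (by norm_num)
      calc k * m * n = m * (k * n) := by ring
        _ ≤ m * ((k + 1) * n) := Nat.mul_le_mul_left _ (Nat.mul_le_mul_right _ (by omega))
    have e2 : (d.natAbs : ℝ) ^ 2 ≤ ((d.natAbs : ℝ) ^ ε) ^ n := by
      rw [← Real.rpow_natCast ((d.natAbs : ℝ) ^ ε) n, ← Real.rpow_mul (by positivity),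
        ← Real.rpow_natCast _ 2]
      apply Real.rpow_le_rpow_of_exponent_le hD
      push_cast
      exact hε
    have e3 : M ≤ (1 + M) ^ n := by
      have : 1 + M ≤ (1 + M) ^ n := le_self_pow₀ (by linarith) (by omega)
      linarith
    rw [mul_pow]
    calc ((2 : ℝ) ^ (k * m)) ^ n ≤ M * (d.natAbs : ℝ) ^ 2 := e1.trans (h4.trans h5)
      _ ≤ (1 + M) ^ n * ((d.natAbs : ℝ) ^ ε) ^ n := mul_le_mul e3 e2 (by positivity) (by positivity)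
  exact le_of_pow_le_pow_left₀ (by omega) (by positivity) h6

end Pool.Agent.TH342.TU
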