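import Pool.Agent.TH342.TU.Diag
import Pool.Agent.TH342.ShortSqSha
import Pool.Agent.TH841.NF.FamN

/-!
# Multiquadratic fields and Tate-Shafarevich groups
-/

set_option autoImplicit false

namespace Pool.Agent.TH342.TU

open Finset Pool.Agent.W307.SE Pool.Agent.W307.FK Pool.Agent.TH342.SQ Pool.Agent.TH841.NF

/-- the coefficient of `x` of the short model of `y² = x (x - A) (x - B)` -/
def cA (A B : ℤ) : ℤ := -27 * (A ^ 2 - A * B + B ^ 2)

/-- the constant coefficient of the short model of `y² = x (x - A) (x - B)` -/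
def cB (A B : ℤ) : ℤ := 27 * (A + B) * (9 * A * B - 2 * (A + B) ^ 2)

lemma cA_mul (D A B : ℤ) : cA (D * A) (D * B) = D ^ 2 * cA A B := by unfold cA; ring

lemma cB_mul (D A B : ℤ) : cB (D * A) (D * B) = D ^ 3 * cB A B := by unfold cB; ring

lemma cpoly (A B : ℤ) : ∀ x : ℤ, x ^ 3 + cA A B * x + cB A B =
    (x - (-3 * (A + B))) * (x - (6 * A - 3 * B)) * (x - (6 * B - 3 * A)) := by
  intro x
  unfold cA cB
  ring

lemma cdisc {A B : ℤ} (hA : A ≠ 0) (hB : B ≠ 0) (hAB : A ≠ B) :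
    4 * cA A B ^ 3 + 27 * cB A B ^ 2 ≠ 0 := by
  have e : 4 * cA A B ^ 3 + 27 * cB A B ^ 2 = -((9 * A) * (9 * B) * (9 * (A - B))) ^ 2 := by
    unfold cA cB
    ring
  rw [e, neg_ne_zero]
  exact pow_ne_zero 2 (mul_ne_zero (mul_ne_zero (mul_ne_zero (by norm_num) hA)
    (mul_ne_zero (by norm_num) hB)) (mul_ne_zero (by norm_num) (sub_ne_zero.2 hAB)))

/-- the moments of the 2-Selmer groups of all the twists -/
theorem sel_MP {k n : ℕ} (hn : 1 ≤ n) {ε : ℝ} (hε : 2 ≤ ε * n) {a b d : ℤ} (hd : d ≠ 0)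
    (ha : a ≠ 0) (hb : b ≠ 0) (hab : a ≠ b) :
    ((Sel (d * a) (d * b)).ncard : ℝ) ^ k ≤
      (1 + MP ((k + 1) * n) (a, b)) * (d.natAbs : ℝ) ^ ε := by
  have h0 : d * a ≠ d * b := fun h => hab (mul_left_cancel₀ hd h)
  have h2 := (rank_le (mul_ne_zero hd ha) (mul_ne_zero hd hb) h0).2
  have h3 : (1 : ℝ) ≤ ((Sel (d * a) (d * b)).ncard : ℝ) := by
    exact_mod_cast Nat.one_le_two_pow.trans h2
  have h4 : ((Sel (d * a) (d * b)).ncard : ℝ) ^ ((k + 1) * n) ≤ GP ((k + 1) * n) d (a, b) := by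
    unfold GP
    rw [if_pos ⟨ha, hb, hab⟩]
  have h5 := GP_le_MP ((k + 1) * n) (a, b) hd
  have hD : (1 : ℝ) ≤ (d.natAbs : ℝ) := by exact_mod_cast Int.natAbs_pos.2 hd
  have hM := MP_nonneg ((k + 1) * n) (a, b)
  set c := ((Sel (d * a) (d * b)).ncard : ℝ) with hc
  set M := MP ((k + 1) * n) (a, b) with hMdef
  have h6 : (c ^ k) ^ n ≤ ((1 + M) * (d.natAbs : ℝ) ^ ε) ^ n := by
    have e1 : (c ^ k) ^ n ≤ c ^ ((k + 1) * n) := by
      rw [← pow_mul]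
      exact pow_le_pow_right₀ h3 (Nat.mul_le_mul_right _ (by omega))
    have e2 : (d.natAbs : ℝ) ^ 2 ≤ ((d.natAbs : ℝ) ^ ε) ^ n := by
      rw [← Real.rpow_natCast ((d.natAbs : ℝ) ^ ε) n, ← Real.rpow_mul (by positivity),
        ← Real.rpow_natCast _ 2]
      apply Real.rpow_le_rpow_of_exponent_le hD
      push_cast
      exact hε
    have e3 : M ≤ (1 + M) ^ n := by
      have : 1 + M ≤ (1 + M) ^ n := le_self_pow₀ (by linarith) (by omega)
      linarith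
    rw [mul_pow]
    calc (c ^ k) ^ n ≤ M * (d.natAbs : ℝ) ^ 2 := e1.trans (h4.trans h5)
      _ ≤ (1 + M) ^ n * ((d.natAbs : ℝ) ^ ε) ^ n := mul_le_mul e3 e2 (by positivity) (by positivity)
  exact le_of_pow_le_pow_left₀ (by omega) (by positivity) h6

/-- **all the multiquadratic fields at once** -/
theorem rho_MP {k n : ℕ} (hn : 1 ≤ n) {ε : ℝ} (hε0 : 0 < ε) (hε : 2 ≤ ε * n) {a b d₀ : ℤ}
    (hd₀ : d₀ ≠ 0) (ha : a ≠ 0) (hb : b ≠ 0) (hab : a ≠ b) {s : ℕ} {d : Fin s → ℤ}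
    (hd : ∀ i, d i ≠ 0) {F : Type} [Field F] [NumberField F] (hF : Gen F d) {q : ℕ}
    (hq : D.HasDiv (EF (cA (d₀ * a) (d₀ * b)) (cB (d₀ * a) (d₀ * b)) F) q) :
    ((2 : ℝ) ^ (D.rk (EF (cA (d₀ * a) (d₀ * b)) (cB (d₀ * a) (d₀ * b)) F) + q)) ^ k ≤
      ((1 + MP ((k + 1) * n) (a, b)) * ((d₀ * ∏ i, d i).natAbs : ℝ) ^ ε) ^ (2 ^ s) := by
  have hda : d₀ * a ≠ 0 := mul_ne_zero hd₀ ha
  have hdb : d₀ * b ≠ 0 := mul_ne_zero hd₀ hb
  have hdab : d₀ * a ≠ d₀ * b := fun h => hab (mul_left_cancel₀ hd₀ h)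
  have hdisc := cdisc hda hdb hdab
  have hP : ∀ T : Finset (Fin s), ∏ i ∈ T, d i ≠ 0 := fun T => prod_ne_zero_iff.2 fun i _ => hd i
  have hdT : ∀ T : Finset (Fin s), (∏ i ∈ T, d i) * d₀ ≠ 0 := fun T => mul_ne_zero (hP T) hd₀
  have h1 := one_field hF hd hdisc
    (fun T => ((Sel (((∏ i ∈ T, d i) * d₀) * a) (((∏ i ∈ T, d i) * d₀) * b)).ncard : ℝ))
    (fun T => by
      have h2 := bd_sel (A := ((∏ i ∈ T, d i) * d₀) * a) (B := ((∏ i ∈ T, d i) * d₀) * b)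
        (mul_ne_zero (hdT T) ha) (mul_ne_zero (hdT T) hb)
        (fun h => hab (mul_left_cancel₀ (hdT T) h))
      have e1 : -27 * ((((∏ i ∈ T, d i) * d₀) * a) ^ 2 - (((∏ i ∈ T, d i) * d₀) * a) *
          (((∏ i ∈ T, d i) * d₀) * b) + (((∏ i ∈ T, d i) * d₀) * b) ^ 2) =
          (∏ i ∈ T, d i) ^ 2 * cA (d₀ * a) (d₀ * b) := by
        unfold cA
        ring
      have e2 : 27 * ((((∏ i ∈ T, d i) * d₀) * a) + (((∏ i ∈ T, d i) * d₀) * b)) *
          (9 * (((∏ i ∈ T, d i) * d₀) * a) * (((∏ i ∈ T, d i) * d₀) * b) -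
            2 * ((((∏ i ∈ T, d i) * d₀) * a) + (((∏ i ∈ T, d i) * d₀) * b)) ^ 2) =
          (∏ i ∈ T, d i) ^ 3 * cB (d₀ * a) (d₀ * b) := by
        unfold cB
        ring
      rw [e1, e2] at h2
      exact h2)
    (fun T => Pool.Agent.W307.RG.fin_tw hdisc (cpoly _ _) (hP T)) hq
  have hdvd : ∀ T : Finset (Fin s), ((∏ i ∈ T, d i) * d₀).natAbs ≤ (d₀ * ∏ i, d i).natAbs := by
    intro T
    have e1 : (∏ i ∈ T, d i) * d₀ ∣ d₀ * ∏ i, d i := by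
      rw [mul_comm]
      exact mul_dvd_mul_left _ (prod_dvd_prod_of_subset _ _ _ (subset_univ T))
    refine Nat.le_of_dvd ?_ (Int.natAbs_dvd_natAbs.2 e1)
    exact Int.natAbs_pos.2 (mul_ne_zero hd₀ (hP univ))
  have hM := MP_nonneg ((k + 1) * n) (a, b)
  have h3 : (∏ T : Finset (Fin s),
      ((Sel (((∏ i ∈ T, d i) * d₀) * a) (((∏ i ∈ T, d i) * d₀) * b)).ncard : ℝ)) ^ k ≤
      ∏ _T : Finset (Fin s),
        ((1 + MP ((k + 1) * n) (a, b)) * ((d₀ * ∏ i, d i).natAbs : ℝ) ^ ε) := by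
    rw [← prod_pow]
    refine prod_le_prod (fun T _ => by positivity) fun T _ => ?_
    refine (sel_MP (k := k) hn hε (hdT T) ha hb hab).trans ?_
    refine mul_le_mul_of_nonneg_left ?_ (by positivity)
    exact Real.rpow_le_rpow (by positivity) (by exact_mod_cast hdvd T) hε0.le
  rw [prod_const, card_univ, Fintype.card_finset, Fintype.card_fin] at h3
  exact (pow_le_pow_left₀ (by positivity) h1 k).trans h3

end Pool.Agent.TH342.TU
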