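import Pool.Agent.TH342.ChiAll
import Pool.Agent.TH344.DT.Main

/-!
# The weighted moments over all the pairs of a short square
-/

set_option autoImplicit false

namespace Pool.Agent.TH342.TU

open Finset Pool.Agent.W262.RK Pool.Agent.W307.SE Pool.Agent.W307.FK Pool.Agent.TH344.DT
  Pool.Agent.TH342.SQ

open Classical in
/-- the `k`-th power of the order of the 2-Selmer group of `y² = x (x - D a) (x - D b)` with the
weight -/
noncomputable def GW (k : ℕ) (T : Finset (Fin 3 → ℝ)) (D : ℤ) (t : ℤ × ℤ) : ℝ :=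
  if t.1 ≠ 0 ∧ t.2 ≠ 0 ∧ t.1 ≠ t.2 then
    ((Sel (D * t.1) (D * t.2)).ncard : ℝ) ^ k * rho T (omg t) else 0

variable {T : Finset (Fin 3 → ℝ)}

lemma GW_nonneg (hT : ∀ t ∈ T, ∀ j, 0 < t j) (k : ℕ) (D : ℤ) (t : ℤ × ℤ) : 0 ≤ GW k T D t := by
  unfold GW
  split_ifs
  · exact mul_nonneg (by positivity) (FinP.rho_nonneg hT _)
  · exact le_rfl

/-- the pairs with greatest common divisor `g` -/
lemma fiberW (hT : ∀ t ∈ T, ∀ j, 0 < t j) (k : ℕ) (D N1 N2 : ℤ) (X g : ℕ) (hg : 0 < g) :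
    ∑ t ∈ (Bx N1 N2 X).filter (fun t => Int.gcd t.1 t.2 = g ∧ t.1 ≠ 0 ∧ t.2 ≠ 0 ∧ t.1 ≠ t.2),
      GW k T D t ≤ ∑ u ∈ Bx (N1 / g) (N2 / g) (X / g + 1),
        SW k T (fun a b => (Sel a b).ncard) (D * g) u := by
  classical
  set S := (Bx N1 N2 X).filter (fun t => Int.gcd t.1 t.2 = g ∧ t.1 ≠ 0 ∧ t.2 ≠ 0 ∧ t.1 ≠ t.2)
    with hS
  have hg' : (g : ℤ) ≠ 0 := by exact_mod_cast hg.ne'
  have hdiv : ∀ t ∈ S, (g : ℤ) * (t.1 / (g : ℤ)) = t.1 ∧ (g : ℤ) * (t.2 / (g : ℤ)) = t.2 := by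
    intro t ht
    obtain ⟨_, h, _⟩ := mem_filter.1 ht
    rw [← h]
    exact ⟨Int.mul_ediv_cancel' (Int.gcd_dvd_left _ _), Int.mul_ediv_cancel' (Int.gcd_dvd_right _ _)⟩
  have hinj : Set.InjOn (fun t : ℤ × ℤ => ((t.1 / (g : ℤ), t.2 / (g : ℤ)) : ℤ × ℤ)) S := by
    intro t ht t' ht' h
    simp only [Prod.mk.injEq] at h
    obtain ⟨a1, a2⟩ := hdiv t ht
    obtain ⟨b1, b2⟩ := hdiv t' ht'
    ext
    · rw [← a1, ← b1, h.1]
    · rw [← a2, ← b2, h.2]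
  calc ∑ t ∈ S, GW k T D t = ∑ t ∈ S,
        SW k T (fun a b => (Sel a b).ncard) (D * g) (t.1 / (g : ℤ), t.2 / (g : ℤ)) := by
        refine sum_congr rfl fun t ht => ?_
        obtain ⟨a1, a2⟩ := hdiv t ht
        obtain ⟨_, h, t1, t2, t3⟩ := mem_filter.1 ht
        have ho : omg t = omz (t.1 / (g : ℤ), t.2 / (g : ℤ)) := by
          unfold omg
          rw [h]
        unfold GW SW
        rw [if_pos ⟨t1, t2, t3⟩, if_pos, ho]
        · simp only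
          rw [mul_assoc, mul_assoc, a1, a2]
        · simp only
          refine ⟨?_, ?_, ?_, ?_⟩
          · have := Int.gcd_ediv_gcd_ediv_gcd (i := t.1) (j := t.2) (by rw [h]; exact hg)
            rw [h] at this
            exact Int.isCoprime_iff_gcd_eq_one.2 this
          · intro h0
            apply t1
            rw [← a1, h0, mul_zero]
          · intro h0
            apply t2
            rw [← a2, h0, mul_zero]
          · intro h0
            apply t3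
            rw [← a1, ← a2, h0]
    _ = ∑ u ∈ S.image (fun t : ℤ × ℤ => ((t.1 / (g : ℤ), t.2 / (g : ℤ)) : ℤ × ℤ)),
          SW k T (fun a b => (Sel a b).ncard) (D * g) u :=
          (sum_image (f := fun u => SW k T (fun a b => (Sel a b).ncard) (D * g) u) hinj).symm
    _ ≤ _ := by
        refine sum_le_sum_of_subset_of_nonneg ?_ fun u _ _ => FinP.SW_nonneg hT _ _ _ _
        intro u hu
        obtain ⟨t, ht, rfl⟩ := mem_image.1 hu
        obtain ⟨a1, a2⟩ := hdiv t ht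
        obtain ⟨ht1, _⟩ := mem_filter.1 ht
        rw [mem_Bx] at ht1 ⊢
        exact ⟨quot_mem hg ht1.1.1 ht1.1.2 a1, quot_mem hg ht1.2.1 ht1.2.2 a2⟩

/-- the pairs with a small common divisor -/
theorem small_gcd (hT : ∀ t ∈ T, ∀ j, 0 < t j) (k : ℕ)
    (hA : AVGW k T (fun a b => (Sel a b).ncard)) (L : ℕ) :
    ∃ C : ℝ, 0 ≤ C ∧ ∀ (D N1 N2 : ℤ) (X : ℕ), D ≠ 0 → 1 ≤ X →
    N1.natAbs ≤ X ^ L → N2.natAbs ≤ X ^ L →
    ∑ t ∈ (Sq N1 N2 X).filter (fun t => (Int.gcd t.1 t.2) ^ 2 ≤ X), GW k T D t ≤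
      C * (2 * 8 ^ k) ^ D.natAbs.primeFactors.card * (X : ℝ) ^ 2 := by
  classical
  obtain ⟨C1, hC1, h1⟩ := hA (2 * (L + 1))
  obtain ⟨C2, hC2, h2⟩ := FinP.som8 k
  refine ⟨4 * C1 * C2, by positivity, fun D N1 N2 X hD hX hN1 hN2 => ?_⟩
  set w := D.natAbs.primeFactors.card with hw
  set S := Sq N1 N2 X with hS
  have hW1 : (1 : ℝ) ≤ 2 * 8 ^ k := by
    have : (1 : ℝ) ≤ 8 ^ k := one_le_pow₀ (by norm_num)
    linarith
  rw [← sum_fiberwise_of_maps_to (s := S.filter (fun t => (Int.gcd t.1 t.2) ^ 2 ≤ X))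
      (t := (Icc 1 X).filter (fun g => g ^ 2 ≤ X)) (g := fun t => Int.gcd t.1 t.2) (by
        intro t ht
        obtain ⟨ht1, ht2⟩ := mem_filter.1 ht
        obtain ⟨_, ht3, _⟩ := mem_filter.1 ht1
        have hg0 : 0 < Int.gcd t.1 t.2 := Int.gcd_pos_of_ne_zero_left _ ht3
        refine mem_filter.2 ⟨mem_Icc.2 ⟨hg0, ?_⟩, ht2⟩
        exact (Nat.le_self_pow two_ne_zero _).trans ht2)]
  have k2 : ∀ g ∈ (Icc 1 X).filter (fun g => g ^ 2 ≤ X),
        ∑ t ∈ (S.filter (fun t => (Int.gcd t.1 t.2) ^ 2 ≤ X)).filter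
          (fun t => Int.gcd t.1 t.2 = g), GW k T D t ≤
        4 * C1 * (2 * 8 ^ k) ^ w * (X : ℝ) ^ 2 *
          ((2 * 8 ^ k : ℝ) ^ g.primeFactors.card / (g : ℝ) ^ 2) := by
    intro g hg
    obtain ⟨hg1, hg2⟩ := mem_filter.1 hg
    rw [mem_Icc] at hg1
    have hg0 : 0 < g := hg1.1
    have hgr : (0 : ℝ) < g := by exact_mod_cast hg0
    refine le_trans (sum_le_sum_of_subset_of_nonneg (t := (Bx N1 N2 X).filter (fun t =>
        Int.gcd t.1 t.2 = g ∧ t.1 ≠ 0 ∧ t.2 ≠ 0 ∧ t.1 ≠ t.2)) ?_ fun t _ _ =>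
        GW_nonneg hT k D t) ?_
    · intro t ht
      obtain ⟨ht1, ht2⟩ := mem_filter.1 ht
      obtain ⟨ht3, _⟩ := mem_filter.1 ht1
      obtain ⟨ht4, ht5⟩ := mem_filter.1 ht3
      exact mem_filter.2 ⟨ht4, ht2, ht5⟩
    refine (fiberW hT k D N1 N2 X g hg0).trans ?_
    rw [sum_Bx]
    have hgg : g ≤ X / g := by
      rw [Nat.le_div_iff_mul_le hg0, ← pow_two]
      exact hg2
    have hX' : X ≤ (X / g + 1) ^ 2 := by
      have a1 : X < g * (X / g + 1) := Nat.lt_mul_div_succ X hg0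
      have a2 : g * (X / g + 1) ≤ (X / g + 1) * (X / g + 1) :=
        Nat.mul_le_mul_right _ (by omega)
      rw [pow_two]
      omega
    have hb : ∀ N : ℤ, N.natAbs ≤ X ^ L → (N / (g : ℤ)).natAbs ≤ (X / g + 1) ^ (2 * (L + 1)) := by
      intro N hN
      calc (N / (g : ℤ)).natAbs ≤ N.natAbs := natAbs_ediv_le N g hg0
        _ ≤ X ^ L := hN
        _ ≤ ((X / g + 1) ^ 2) ^ L := Nat.pow_le_pow_left hX' L
        _ = (X / g + 1) ^ (2 * L) := by rw [← pow_mul]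
        _ ≤ _ := Nat.pow_le_pow_right (by omega) (by omega)
    refine (h1 (D * g) (N1 / g) (N2 / g) (X / g + 1) (mul_ne_zero hD (by exact_mod_cast hg0.ne'))
      (by omega) (hb N1 hN1) (hb N2 hN2)).trans ?_
    have hom : (D * (g : ℤ)).natAbs.primeFactors.card ≤ w + g.primeFactors.card := by
      rw [Int.natAbs_mul, Int.natAbs_natCast, Nat.primeFactors_mul (Int.natAbs_ne_zero.2 hD)
        hg0.ne']
      exact card_union_le _ _
    have hp : (2 * 8 ^ k : ℝ) ^ (D * (g : ℤ)).natAbs.primeFactors.card ≤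
        (2 * 8 ^ k) ^ w * (2 * 8 ^ k) ^ g.primeFactors.card := by
      rw [← pow_add]
      exact pow_le_pow_right₀ hW1 hom
    have hq : (((X / g + 1 : ℕ) : ℝ)) ≤ 2 * (X / g) := by
      push_cast
      have a1 : ((X / g : ℕ) : ℝ) ≤ (X : ℝ) / g := Nat.cast_div_le
      have a2 : (1 : ℝ) ≤ (X : ℝ) / g := by
        rw [one_le_div hgr]
        exact_mod_cast hg1.2
      linarith
    have hq2 : (((X / g + 1 : ℕ) : ℝ)) ^ 2 ≤ (2 * (X / g)) ^ 2 :=
      pow_le_pow_left₀ (by positivity) hq 2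
    calc C1 * (2 * 8 ^ k) ^ (D * (g : ℤ)).natAbs.primeFactors.card * (((X / g + 1 : ℕ) : ℝ)) ^ 2
        ≤ C1 * ((2 * 8 ^ k) ^ w * (2 * 8 ^ k) ^ g.primeFactors.card) * (2 * (X / g)) ^ 2 := by
          gcongr
      _ = _ := by
          field_simp
          ring
  refine (sum_le_sum k2).trans ?_
  rw [← mul_sum]
  have k3 : ∑ g ∈ (Icc 1 X).filter (fun g => g ^ 2 ≤ X),
      (2 * 8 ^ k : ℝ) ^ g.primeFactors.card / (g : ℝ) ^ 2 ≤ C2 :=
    (sum_le_sum_of_subset_of_nonneg (filter_subset _ _) fun g _ _ => by positivity).trans (h2 X)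
  calc _ ≤ 4 * C1 * (2 * 8 ^ k) ^ w * (X : ℝ) ^ 2 * C2 :=
        mul_le_mul_of_nonneg_left k3 (by positivity)
    _ = _ := by ring

end Pool.Agent.TH342.TU
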