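import Pool.Agent.TH342.TU.Tur
import Pool.Agent.TH342.TU.Mom

/-!
# The pairs of weight less than one are rare in short squares
-/

set_option autoImplicit false

namespace Pool.Agent.TH342.TU

open Finset Filter Pool.Agent.TH344.DT Pool.Agent.TH342.SQ

open Pool.Agent.TH344.DT.Tur (Q L L_nonneg L_tendsto)

open Classical in
/-- the exceptional pairs -/
noncomputable def Z (T : Finset (Fin 3 → ℝ)) (N1 N2 : ℤ) (X : ℕ) : Finset (ℤ × ℤ) :=
  (Sq N1 N2 X).filter (fun t => rho T (omg t) < 1 ∨ X < (Int.gcd t.1 t.2) ^ 2)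

lemma card_I (N : ℤ) (X : ℕ) : (Ioc N (N + X)).card = X := by
  rw [Int.card_Ioc, add_sub_cancel_left, Int.toNat_natCast]

/-- the pairs with first coordinate in a set -/
lemma c1 (N1 N2 : ℤ) (X : ℕ) (A : Finset ℤ) :
    ((Bx N1 N2 X).filter (fun t => t.1 ∈ A)).card ≤ A.card * X := by
  classical
  have h : (Bx N1 N2 X).filter (fun t => t.1 ∈ A) ⊆ A ×ˢ Ioc N2 (N2 + X) := by
    intro t ht
    rw [mem_filter, mem_Bx] at ht
    rw [mem_product, mem_Ioc]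
    exact ⟨ht.2, ht.1.2⟩
  refine (card_le_card h).trans ?_
  rw [card_product, card_I]

/-- the pairs with second coordinate in a set -/
lemma c2 (N1 N2 : ℤ) (X : ℕ) (A : Finset ℤ) :
    ((Bx N1 N2 X).filter (fun t => t.2 ∈ A)).card ≤ A.card * X := by
  classical
  have h : (Bx N1 N2 X).filter (fun t => t.2 ∈ A) ⊆ Ioc N1 (N1 + X) ×ˢ A := by
    intro t ht
    rw [mem_filter, mem_Bx] at ht
    rw [mem_product, mem_Ioc]
    exact ⟨ht.1.1, ht.2⟩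
  refine (card_le_card h).trans ?_
  rw [card_product, card_I, mul_comm]

/-- the pairs with difference in a set -/
lemma c3 (N1 N2 : ℤ) (X : ℕ) (A : ℤ → Finset ℤ) (K : ℝ)
    (hA : ∀ b ∈ Ioc N2 (N2 + X), ((A b).card : ℝ) ≤ K) :
    (((Bx N1 N2 X).filter (fun t => t.1 - t.2 ∈ A t.2)).card : ℝ) ≤ X * K := by
  classical
  have h : (Bx N1 N2 X).filter (fun t => t.1 - t.2 ∈ A t.2) ⊆
      (Ioc N2 (N2 + X)).biUnion (fun b => (A b).image (fun c => (c + b, b))) := by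
    intro t ht
    rw [mem_filter, mem_Bx] at ht
    rw [mem_biUnion]
    refine ⟨t.2, mem_Ioc.2 ht.1.2, ?_⟩
    rw [mem_image]
    exact ⟨t.1 - t.2, ht.2, by rw [sub_add_cancel]⟩
  have h1 : (((Bx N1 N2 X).filter (fun t => t.1 - t.2 ∈ A t.2)).card : ℝ) ≤
      ∑ b ∈ Ioc N2 (N2 + X), (((A b).image (fun c => (c + b, b))).card : ℝ) := by
    exact_mod_cast (card_le_card h).trans card_biUnion_le
  refine h1.trans ?_
  calc _ ≤ ∑ b ∈ Ioc N2 (N2 + X), K := by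
        refine sum_le_sum fun b hb => ?_
        exact (Nat.cast_le.2 card_image_le).trans (hA b hb)
    _ = _ := by rw [sum_const, card_I, nsmul_eq_mul]

/-- the pairs with a moderately large common divisor -/
lemma c4 (N1 N2 : ℤ) (X G : ℕ) (hG : 1 ≤ G) :
    (((Bx N1 N2 X).filter (fun t => t.1 ≠ 0 ∧ G < Int.gcd t.1 t.2 ∧
      (Int.gcd t.1 t.2) ^ 2 ≤ X)).card : ℝ) ≤ 4 * X ^ 2 / G := by
  classical
  have h : (Bx N1 N2 X).filter (fun t => t.1 ≠ 0 ∧ G < Int.gcd t.1 t.2 ∧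
      (Int.gcd t.1 t.2) ^ 2 ≤ X) ⊆
      (Ioc G X).biUnion (fun g => ((Ioc N1 (N1 + X)).filter (fun t => (g : ℤ) ∣ t)) ×ˢ
        ((Ioc N2 (N2 + X)).filter (fun t => (g : ℤ) ∣ t))) := by
    intro t ht
    rw [mem_filter, mem_Bx] at ht
    obtain ⟨h1, h2, h3, h4⟩ := ht
    rw [mem_biUnion]
    refine ⟨Int.gcd t.1 t.2, mem_Ioc.2 ⟨h3, (Nat.le_self_pow two_ne_zero _).trans h4⟩, ?_⟩
    rw [mem_product, mem_filter, mem_filter, mem_Ioc, mem_Ioc]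
    exact ⟨⟨h1.1, Int.gcd_dvd_left _ _⟩, h1.2, Int.gcd_dvd_right _ _⟩
  have h1 : (((Bx N1 N2 X).filter (fun t => t.1 ≠ 0 ∧ G < Int.gcd t.1 t.2 ∧
      (Int.gcd t.1 t.2) ^ 2 ≤ X)).card : ℝ) ≤ ∑ g ∈ Ioc G X, 4 * (X : ℝ) ^ 2 * ((g : ℝ) ^ 2)⁻¹ := by
    refine (Nat.cast_le.2 ((card_le_card h).trans card_biUnion_le)).trans ?_
    rw [Nat.cast_sum]
    refine sum_le_sum fun g hg => ?_
    rw [mem_Ioc] at hg
    have hg0 : 0 < g := by omega
    have hgr : (0 : ℝ) < g := by exact_mod_cast hg0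
    rw [card_product]
    have e1 : (X / g : ℕ) + 1 ≤ 2 * (X / g) := by
      have : 1 ≤ X / g := (Nat.one_le_div_iff hg0).2 hg.2
      omega
    have e2 := (card_mult N1 X g hg0).trans e1
    have e3 := (card_mult N2 X g hg0).trans e1
    have e4 : ((X / g : ℕ) : ℝ) ≤ (X : ℝ) / g := Nat.cast_div_le
    have e5 : ((((Ioc N1 (N1 + (X : ℤ))).filter (fun t => (g : ℤ) ∣ t)).card *
        ((Ioc N2 (N2 + (X : ℤ))).filter (fun t => (g : ℤ) ∣ t)).card : ℕ) : ℝ) ≤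
        (2 * (X / g : ℕ)) * (2 * (X / g : ℕ)) := by exact_mod_cast Nat.mul_le_mul e2 e3
    refine e5.trans ?_
    calc (2 * ((X / g : ℕ) : ℝ)) * (2 * ((X / g : ℕ) : ℝ)) ≤
          (2 * ((X : ℝ) / g)) * (2 * ((X : ℝ) / g)) := by gcongr
      _ = _ := by
          field_simp
          ring
  refine h1.trans ?_
  rw [← mul_sum, mul_div_assoc]
  have hG0 : (0 : ℝ) < G := by exact_mod_cast hG
  rcases le_or_gt G X with h2 | h2
  · have h3 := sum_Ioc_inv_sq_le_sub (α := ℝ) (by omega : G ≠ 0) h2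
    have h4 : (0 : ℝ) ≤ (X : ℝ)⁻¹ := by positivity
    have h5 : ∑ i ∈ Ioc G X, ((i : ℝ) ^ 2)⁻¹ ≤ (G : ℝ)⁻¹ := by linarith
    calc 4 * (X : ℝ) ^ 2 * ∑ i ∈ Ioc G X, ((i : ℝ) ^ 2)⁻¹ ≤ 4 * (X : ℝ) ^ 2 * (G : ℝ)⁻¹ :=
          mul_le_mul_of_nonneg_left h5 (by positivity)
      _ = _ := by ring
  · rw [Ioc_eq_empty_of_le h2.le, sum_empty, mul_zero]
    positivity

/-- the pairs with a large common divisor -/
lemma c5 (B : ℕ) (ε : ℝ) (hε : 0 < ε) : ∃ X0 : ℕ, ∀ X, X0 ≤ X → ∀ N1 N2 : ℤ,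
    (∀ n ∈ Ioc N1 (N1 + X), n.natAbs ≤ X ^ B) →
    (((Bx N1 N2 X).filter (fun t => X < (Int.gcd t.1 t.2) ^ 2 ∧ t.1 ≠ 0)).card : ℝ) ≤
      ε * X ^ 2 := by
  obtain ⟨K, hK, hτ⟩ := Pool.Agent.Helper112.divisor_bound (1 / (4 * ((B : ℝ) + 1)))
    (by positivity)
  obtain ⟨X0, hX0⟩ := exists_nat_ge ((2 * K / ε) ^ 4)
  refine ⟨X0 + 1, fun X hX N1 N2 hN => ?_⟩
  have hX1 : (1 : ℝ) ≤ X := by exact_mod_cast (by omega : 1 ≤ X)
  have hXp : (0 : ℝ) < X := by linarith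
  set q : ℝ := (X : ℝ) ^ ((1 : ℝ) / 4) with hq
  have hq0 : 0 < q := by positivity
  have hq4 : q ^ 4 = X := by
    rw [hq, ← Real.rpow_natCast, ← Real.rpow_mul hXp.le]
    norm_num
  have hq1 : 1 ≤ q := Real.one_le_rpow hX1 (by norm_num)
  have h1 := card_big N1 N2 X (K * q) (by positivity) (by
    intro t ht ht0
    have h2 : 1 ≤ t.natAbs := Nat.one_le_iff_ne_zero.2 (Int.natAbs_ne_zero.2 ht0)
    refine (hτ _ h2).trans ?_
    refine mul_le_mul_of_nonneg_left ?_ hK.le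
    have h3 : ((t.natAbs : ℕ) : ℝ) ≤ (X : ℝ) ^ B := by exact_mod_cast hN t ht
    calc ((t.natAbs : ℕ) : ℝ) ^ (1 / (4 * ((B : ℝ) + 1))) ≤
          ((X : ℝ) ^ B) ^ (1 / (4 * ((B : ℝ) + 1))) :=
          Real.rpow_le_rpow (by positivity) h3 (by positivity)
      _ = (X : ℝ) ^ ((B : ℝ) * (1 / (4 * ((B : ℝ) + 1)))) := by
          rw [← Real.rpow_natCast, ← Real.rpow_mul hXp.le]
      _ ≤ q := by
          rw [hq]
          apply Real.rpow_le_rpow_of_exponent_le hX1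
          rw [mul_one_div, div_le_div_iff₀ (by positivity) (by norm_num)]
          have : (0 : ℝ) ≤ B := Nat.cast_nonneg _
          linarith)
  refine h1.trans ?_
  have hs : Real.sqrt X = q ^ 2 := by
    rw [Real.sqrt_eq_iff_mul_self_eq (by positivity) (by positivity), ← hq4]
    ring
  rw [hs]
  have h5 : (2 * K / ε) ≤ q := by
    have h6 : (2 * K / ε) ^ 4 ≤ q ^ 4 := by
      rw [hq4]
      refine hX0.trans ?_
      exact_mod_cast (by omega : X0 ≤ X)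
    exact le_of_pow_le_pow_left₀ (by norm_num) hq0.le h6
  have h6 : 2 * K ≤ ε * q := by
    rw [div_le_iff₀ hε] at h5
    linarith
  have h7 : (1 : ℝ) ≤ q ^ 2 := one_le_pow₀ hq1
  calc (X : ℝ) * (K * q * (q ^ 2 + 1)) ≤ X * (K * q * (q ^ 2 + q ^ 2)) := by gcongr
    _ = X * q ^ 3 * (2 * K) := by ring
    _ ≤ X * q ^ 3 * (ε * q) := mul_le_mul_of_nonneg_left h6 (by positivity)
    _ = ε * (X * q ^ 4) := by ring
    _ = ε * X ^ 2 := by rw [hq4]; ring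

/-- **the exceptional pairs are rare** -/
theorem bad (T : Finset (Fin 3 → ℝ)) (hT1 : ∀ t ∈ T, ∀ j, 0 < t j) (hT2 : ∀ t ∈ T, 1 < ∏ j, t j)
    (B : ℕ) (ε : ℝ) (hε : 0 < ε) : ∃ X0 : ℕ, ∀ X, X0 ≤ X → ∀ N1 N2 : ℤ,
    N1.natAbs ≤ X ^ B → N2.natAbs ≤ X ^ B → ((Z T N1 N2 X).card : ℝ) ≤ ε * X ^ 2 := by
  classical
  obtain ⟨δ, hδ, hδT⟩ := exists_delta T hT2
  obtain ⟨G, hG⟩ := exists_nat_gt (20 / ε)
  have hG0 : (0 : ℝ) < G := lt_trans (by positivity) hG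
  have hG1 : 1 ≤ G := by exact_mod_cast hG0
  obtain ⟨X1, hX1⟩ := small (B + 2) (δ / 2) (by positivity) (ε / 5) (by positivity)
  obtain ⟨X2, hX2⟩ := c5 (B + 2) (ε / 5) (by positivity)
  obtain ⟨X3, hX3⟩ := (L_tendsto.eventually_ge_atTop (2 * G / δ)).exists_forall_of_atTop
  refine ⟨X1 + X2 + X3 + 4, fun X hX N1 N2 hN1 hN2 => ?_⟩
  have hXr : (0 : ℝ) ≤ X := Nat.cast_nonneg _
  have hb0 : X ^ B + X ^ B + X ≤ X ^ (B + 2) := by
    have e1 : 1 ≤ X ^ B := Nat.one_le_pow _ _ (by omega)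
    have e2 : X ^ (B + 2) = X ^ B * X * X := by ring
    rw [e2]
    nlinarith [Nat.mul_le_mul e1 (le_refl X)]
  have hb1 : ∀ N : ℤ, N.natAbs ≤ X ^ B → ∀ n ∈ Ioc N (N + X), n.natAbs ≤ X ^ (B + 2) := by
    intro N hN n hn
    rw [mem_Ioc] at hn
    omega
  have hb2 : ∀ b ∈ Ioc N2 (N2 + X), ∀ n ∈ Ioc (N1 - b) (N1 - b + X),
      n.natAbs ≤ X ^ (B + 2) := by
    intro b hb n hn
    rw [mem_Ioc] at hb hn
    have e3 : X ^ B + X ^ B + X + X ≤ X ^ (B + 2) := by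
      have e1 : 1 ≤ X ^ B := Nat.one_le_pow _ _ (by omega)
      have e2 : X ^ (B + 2) = X ^ B * X * X := by ring
      rw [e2]
      have e4 : 4 ≤ X := by omega
      nlinarith [Nat.mul_le_mul e1 (le_refl X), Nat.mul_le_mul (Nat.mul_le_mul e1 e4) e4]
    omega
  have hS1 := hX1 X (by omega) N1 (hb1 N1 hN1)
  have hS2 := hX1 X (by omega) N2 (hb1 N2 hN2)
  have hS3 : ∀ b ∈ Ioc N2 (N2 + X), ((S (N1 - b) X (δ / 2)).card : ℝ) ≤ ε / 5 * X :=
    fun b hb => hX1 X (by omega) (N1 - b) (hb2 b hb)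
  have hL := hX3 X (by omega)
  have hL0 : 0 < L X := lt_of_lt_of_le (by positivity) hL
  have hGL : (G : ℝ) ≤ δ / 2 * L X := by
    rw [div_le_iff₀ hδ] at hL
    linarith
  have hsub : Z T N1 N2 X ⊆
      (((Bx N1 N2 X).filter (fun t => t.1 ∈ S N1 X (δ / 2))) ∪
       ((Bx N1 N2 X).filter (fun t => t.2 ∈ S N2 X (δ / 2)))) ∪
      ((((Bx N1 N2 X).filter (fun t => t.1 - t.2 ∈ S (N1 - t.2) X (δ / 2))) ∪
        ((Bx N1 N2 X).filter (fun t => t.1 ≠ 0 ∧ G < Int.gcd t.1 t.2 ∧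
          (Int.gcd t.1 t.2) ^ 2 ≤ X))) ∪
        ((Bx N1 N2 X).filter (fun t => X < (Int.gcd t.1 t.2) ^ 2 ∧ t.1 ≠ 0))) := by
    intro t ht
    unfold Z at ht
    rw [mem_filter] at ht
    obtain ⟨ht1, h6⟩ := ht
    obtain ⟨hb, h3, h4, h5⟩ := mem_filter.1 ht1
    have hb' : t ∈ Bx N1 N2 X := hb
    by_contra hcon
    simp only [mem_union, mem_filter, hb', true_and, not_or, not_and, not_lt, not_le, h3, ne_eq,
      not_false_eq_true, true_imp_iff, and_true, forall_true_left] at hcon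
    obtain ⟨⟨d1, d2⟩, ⟨d3, d4⟩, d5⟩ := hcon
    rw [mem_Bx] at hb'
    have hrho : rho T (omg t) < 1 := by
      rcases h6 with h | h
      · exact h
      · exact absurd h (not_lt.2 d5)
    set g := Int.gcd t.1 t.2 with hg
    have hgG : g ≤ G := by
      by_contra h
      exact absurd (d4 (not_le.1 h)) (not_lt.2 d5)
    have hgL : (g : ℝ) ≤ δ / 2 * L X := (Nat.cast_le.2 hgG).trans hGL
    have hg1 : (g : ℤ) ∣ t.1 := Int.gcd_dvd_left _ _
    have hg2 : (g : ℤ) ∣ t.2 := Int.gcd_dvd_right _ _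
    have key : ∀ (N a : ℤ), a ≠ 0 → a ∈ Ioc N (N + X) → (g : ℤ) ∣ a → a ∉ S N X (δ / 2) →
        |((a / (g : ℤ)).natAbs.primeFactors.card : ℝ) - L X| ≤ δ * L X := by
      intro N a ha haN hga haS
      unfold S at haS
      rw [mem_filter, not_and, not_and, not_lt] at haS
      have e1 := haS haN ha
      obtain ⟨e2, e3⟩ := div_omega a ha g hga
      have e2' : ((a / (g : ℤ)).natAbs.primeFactors.card : ℝ) ≤ a.natAbs.primeFactors.card := by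
        exact_mod_cast e2
      have e3' : (a.natAbs.primeFactors.card : ℝ) ≤
          (a / (g : ℤ)).natAbs.primeFactors.card + g := by exact_mod_cast e3
      rw [abs_le] at e1 ⊢
      constructor <;> linarith [e1.1, e1.2]
    obtain ⟨t0, ht0, hlt⟩ := rho_lt_one hrho
    refine absurd hlt (not_lt.2 (le_of_lt (prod_gt (hT1 t0 ht0) hL0 (hδT t0 ht0) _ ?_)))
    intro j
    unfold omg omz
    fin_cases j
    · exact key N1 t.1 h3 (mem_Ioc.2 hb'.1) hg1 d1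
    · exact key N2 t.2 h4 (mem_Ioc.2 hb'.2) hg2 d2
    · have e : t.1 / (g : ℤ) - t.2 / (g : ℤ) = (t.1 - t.2) / (g : ℤ) := by
        rw [Int.sub_ediv_of_dvd _ hg2]
      show |(((t.1 / (g : ℤ)) - (t.2 / (g : ℤ))).natAbs.primeFactors.card : ℝ) - L X| ≤ δ * L X
      rw [e]
      exact key (N1 - t.2) (t.1 - t.2) (sub_ne_zero.2 h5) (mem_Ioc.2 ⟨by omega, by omega⟩)
        (dvd_sub hg1 hg2) d3
  have k1 : (((Bx N1 N2 X).filter (fun t => t.1 ∈ S N1 X (δ / 2))).card : ℝ) ≤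
      ε / 5 * X ^ 2 := by
    have e1 : (((Bx N1 N2 X).filter (fun t => t.1 ∈ S N1 X (δ / 2))).card : ℝ) ≤
      (S N1 X (δ / 2)).card * X := by exact_mod_cast c1 N1 N2 X (S N1 X (δ / 2))
    have e2 : ((S N1 X (δ / 2)).card : ℝ) * X ≤ ε / 5 * X * X :=
      mul_le_mul_of_nonneg_right hS1 hXr
    linarith [e1, e2, sq (X : ℝ)]
  have k2 : (((Bx N1 N2 X).filter (fun t => t.2 ∈ S N2 X (δ / 2))).card : ℝ) ≤
      ε / 5 * X ^ 2 := by
    have e1 : (((Bx N1 N2 X).filter (fun t => t.2 ∈ S N2 X (δ / 2))).card : ℝ) ≤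
      (S N2 X (δ / 2)).card * X := by exact_mod_cast c2 N1 N2 X (S N2 X (δ / 2))
    have e2 : ((S N2 X (δ / 2)).card : ℝ) * X ≤ ε / 5 * X * X :=
      mul_le_mul_of_nonneg_right hS2 hXr
    linarith [e1, e2, sq (X : ℝ)]
  have k3 : (((Bx N1 N2 X).filter (fun t => t.1 - t.2 ∈ S (N1 - t.2) X (δ / 2))).card : ℝ) ≤
      ε / 5 * X ^ 2 := by
    refine (c3 N1 N2 X (fun b => S (N1 - b) X (δ / 2)) _ hS3).trans (le_of_eq ?_)
    ring
  have k4 : (((Bx N1 N2 X).filter (fun t => t.1 ≠ 0 ∧ G < Int.gcd t.1 t.2 ∧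
      (Int.gcd t.1 t.2) ^ 2 ≤ X)).card : ℝ) ≤ ε / 5 * X ^ 2 := by
    refine (c4 N1 N2 X G hG1).trans ?_
    rw [div_le_iff₀ hG0]
    have : 20 < ε * G := by
      rw [div_lt_iff₀ hε] at hG
      linarith
    nlinarith [sq_nonneg (X : ℝ)]
  have k5 := hX2 X (by omega) N1 N2 (hb1 N1 hN1)
  have hfin := card_le_card hsub
  have hfin2 := (hfin.trans (card_union_le _ _)).trans
    (Nat.add_le_add (card_union_le _ _) ((card_union_le _ _).trans
      (Nat.add_le_add_right (card_union_le _ _) _)))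
  have hfin3 : ((Z T N1 N2 X).card : ℝ) ≤
      (((Bx N1 N2 X).filter (fun t => t.1 ∈ S N1 X (δ / 2))).card : ℝ) +
      (((Bx N1 N2 X).filter (fun t => t.2 ∈ S N2 X (δ / 2))).card : ℝ) +
      ((((Bx N1 N2 X).filter (fun t => t.1 - t.2 ∈ S (N1 - t.2) X (δ / 2))).card : ℝ) +
      (((Bx N1 N2 X).filter (fun t => t.1 ≠ 0 ∧ G < Int.gcd t.1 t.2 ∧
          (Int.gcd t.1 t.2) ^ 2 ≤ X)).card : ℝ) +
      (((Bx N1 N2 X).filter (fun t => X < (Int.gcd t.1 t.2) ^ 2 ∧ t.1 ≠ 0)).card : ℝ)) := by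
    exact_mod_cast hfin2
  linarith

end Pool.Agent.TH342.TU
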