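import Pool.Agent.TH342.TU.Bad

/-!
# The moments outside of the exceptional sets, all twists at once
-/

set_option autoImplicit false

namespace Pool.Agent.TH342.TU

open Finset Filter Pool.Agent.W262.RK Pool.Agent.W307.SE Pool.Agent.W307.FK Pool.Agent.TH344.DT
  Pool.Agent.TH342.SQ

open Classical in
/-- the `K`-th power of the order of the 2-Selmer group of `y² = x (x - D a) (x - D b)` -/
noncomputable def GP (K : ℕ) (D : ℤ) (t : ℤ × ℤ) : ℝ :=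
  if t.1 ≠ 0 ∧ t.2 ≠ 0 ∧ t.1 ≠ t.2 then ((Sel (D * t.1) (D * t.2)).ncard : ℝ) ^ K else 0

lemma GP_nonneg (K : ℕ) (D : ℤ) (t : ℤ × ℤ) : 0 ≤ GP K D t := by
  unfold GP
  split_ifs
  · positivity
  · exact le_rfl

/-- the moments outside of the exceptional set -/
theorem mom_out (K : ℕ) (hK : 1 ≤ K) : ∃ T : Finset (Fin 3 → ℝ), (∀ t ∈ T, ∀ j, 0 < t j) ∧
    (∀ t ∈ T, 1 < ∏ j, t j) ∧ ∀ L : ℕ, ∃ C : ℝ, 0 ≤ C ∧ ∀ (D N1 N2 : ℤ) (X : ℕ), D ≠ 0 → 1 ≤ X →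
    N1.natAbs ≤ X ^ L → N2.natAbs ≤ X ^ L →
    ∑ t ∈ (Sq N1 N2 X).filter (fun t => t ∉ Z T N1 N2 X), GP K D t ≤
      C * (2 * 8 ^ K) ^ D.natAbs.primeFactors.card * (Sq N1 N2 X).card := by
  classical
  obtain ⟨T, hT1, hT2, hM⟩ := mafw_of (atw_of ful lnk) cmb expw K hK
  refine ⟨T, hT1, hT2, fun L => ?_⟩
  obtain ⟨C, hC, h⟩ := small_gcd hT1 K (avg K T hT1 hM _ selfg) L
  refine ⟨36 * C, by positivity, fun D N1 N2 X hD hX hN1 hN2 => ?_⟩
  rcases (Sq N1 N2 X).eq_empty_or_nonempty with h0 | h0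
  · rw [h0]
    simp
  have h1 := h D N1 N2 X hD hX hN1 hN2
  have h2 := sq_le_card N1 N2 X h0
  have h3 : ∑ t ∈ (Sq N1 N2 X).filter (fun t => t ∉ Z T N1 N2 X), GP K D t ≤
      ∑ t ∈ (Sq N1 N2 X).filter (fun t => (Int.gcd t.1 t.2) ^ 2 ≤ X), GW K T D t := by
    refine le_trans (sum_le_sum (g := fun t => GW K T D t) fun t ht => ?_)
      (sum_le_sum_of_subset_of_nonneg (fun t ht => ?_) fun t _ _ => GW_nonneg hT1 K D t)
    · obtain ⟨ht1, ht2⟩ := mem_filter.1 ht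
      obtain ⟨_, ht3⟩ := mem_filter.1 ht1
      unfold Z at ht2
      rw [mem_filter, not_and, not_or, not_lt, not_lt] at ht2
      have h4 := (ht2 ht1).1
      unfold GP GW
      rw [if_pos ht3, if_pos ht3]
      exact le_mul_of_one_le_right (by positivity) h4
    · obtain ⟨ht1, ht2⟩ := mem_filter.1 ht
      unfold Z at ht2
      rw [mem_filter, not_and, not_or, not_lt, not_lt] at ht2
      exact mem_filter.2 ⟨ht1, (ht2 ht1).2⟩
  refine h3.trans (h1.trans ?_)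
  calc C * (2 * 8 ^ K) ^ D.natAbs.primeFactors.card * (X : ℝ) ^ 2 ≤
        C * (2 * 8 ^ K) ^ D.natAbs.primeFactors.card * (36 * (Sq N1 N2 X).card) :=
          mul_le_mul_of_nonneg_left h2 (by positivity)
    _ = _ := by ring

/-- the weighted term -/
noncomputable def fP (K : ℕ) (t : ℤ × ℤ) (D : {D : ℤ // D ≠ 0}) : ℝ :=
  GP K D.1 t / (D.1.natAbs : ℝ) ^ 2

/-- the supremum over all the twists -/
noncomputable def MP (K : ℕ) (t : ℤ × ℤ) : ℝ := ⨆ D : {D : ℤ // D ≠ 0}, fP K t D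

lemma bddP (K : ℕ) (t : ℤ × ℤ) : BddAbove (Set.range (fP K t)) := by
  by_cases ht : t.1 ≠ 0 ∧ t.2 ≠ 0 ∧ t.1 ≠ t.2
  · refine ⟨(16 * ((2 * t.1 * t.2 * (t.1 - t.2)).natAbs.divisors.card : ℝ) ^ 2) ^ K *
      ((4 ^ K : ℕ) : ℝ) ^ ((4 ^ K) ^ 2), ?_⟩
    rintro _ ⟨D, rfl⟩
    unfold fP
    have hD : 1 ≤ D.1.natAbs := Int.natAbs_pos.2 D.2
    have h0 : (1 : ℝ) ≤ (D.1.natAbs : ℝ) := by exact_mod_cast hD
    rw [div_le_iff₀ (by positivity)]
    have h2 := triv D.2 ht.1 ht.2.1 ht.2.2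
    have h3 : ((Sel (D.1 * t.1) (D.1 * t.2)).ncard : ℝ) ≤
        16 * 4 ^ D.1.natAbs.primeFactors.card *
          ((2 * t.1 * t.2 * (t.1 - t.2)).natAbs.divisors.card : ℝ) ^ 2 := by
      apply le_of_pow_le_pow_left₀ two_ne_zero (by positivity)
      refine h2.trans (le_of_eq ?_)
      have e1 : (16 : ℝ) ^ D.1.natAbs.primeFactors.card =
          (4 ^ D.1.natAbs.primeFactors.card) ^ 2 := by
        rw [← pow_mul, mul_comm _ 2, pow_mul]
        norm_num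
      rw [e1]
      ring
    have h4 : ((Sel (D.1 * t.1) (D.1 * t.2)).ncard : ℝ) ^ K ≤
        (16 * ((2 * t.1 * t.2 * (t.1 - t.2)).natAbs.divisors.card : ℝ) ^ 2) ^ K *
          ((4 ^ K : ℕ) : ℝ) ^ D.1.natAbs.primeFactors.card := by
      refine (pow_le_pow_left₀ (by positivity) h3 K).trans (le_of_eq ?_)
      push_cast
      rw [← pow_mul, mul_comm K, pow_mul, ← mul_pow]
      ring
    have h5 := FinP.omega_bound (4 ^ K) (Nat.one_le_pow _ _ (by norm_num)) D.1.natAbs (by omega)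
    have h6 : Real.sqrt (D.1.natAbs : ℝ) ≤ (D.1.natAbs : ℝ) ^ 2 := by
      have e1 : Real.sqrt (D.1.natAbs : ℝ) ≤ (D.1.natAbs : ℝ) := by
        rw [Real.sqrt_le_left (by positivity)]
        exact le_self_pow₀ h0 two_ne_zero
      exact e1.trans (le_self_pow₀ h0 two_ne_zero)
    have h7 : GP K D.1 t = ((Sel (D.1 * t.1) (D.1 * t.2)).ncard : ℝ) ^ K := by
      unfold GP
      rw [if_pos ht]
    rw [h7]
    have h8 := h5.trans (mul_le_mul_of_nonneg_left h6 (pow_nonneg (Nat.cast_nonneg (4 ^ K)) _))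
    have h9 : (0 : ℝ) ≤
        (16 * ((2 * t.1 * t.2 * (t.1 - t.2)).natAbs.divisors.card : ℝ) ^ 2) ^ K := by positivity
    exact h4.trans ((mul_le_mul_of_nonneg_left h8 h9).trans (le_of_eq (mul_assoc _ _ _).symm))
  · refine ⟨0, ?_⟩
    rintro _ ⟨D, rfl⟩
    unfold fP GP
    rw [if_neg ht, zero_div]

lemma MP_nonneg (K : ℕ) (t : ℤ × ℤ) : 0 ≤ MP K t := by
  unfold MP
  apply Real.iSup_nonneg
  intro D
  unfold fP
  have := GP_nonneg K D.1 t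
  positivity

lemma GP_le_MP (K : ℕ) (t : ℤ × ℤ) {D : ℤ} (hD : D ≠ 0) :
    GP K D t ≤ MP K t * (D.natAbs : ℝ) ^ 2 := by
  have h0 : (0 : ℝ) < (D.natAbs : ℝ) := by exact_mod_cast Int.natAbs_pos.2 hD
  rw [← div_le_iff₀ (by positivity)]
  exact le_ciSup (bddP K t) ⟨D, hD⟩

/-- from the sums for the single twists to the suprema -/
theorem sup_of {W : ℝ} (K : ℕ) (A : Finset (ℤ × ℤ)) (Q : ℝ) (hQ : 0 ≤ Q)
    (hA : ∀ D : ℤ, D ≠ 0 → ∑ t ∈ A, GP K D t ≤ Q * (2 * 8 ^ K) ^ D.natAbs.primeFactors.card)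
    (hw : ∀ n : ℕ, ∑ g ∈ Icc 1 n, (2 * 8 ^ K : ℝ) ^ g.primeFactors.card / (g : ℝ) ^ 2 ≤ W) :
    ∑ t ∈ A, MP K t ≤ 2 * W * Q := by
  classical
  have : Nonempty {D : ℤ // D ≠ 0} := ⟨⟨1, one_ne_zero⟩⟩
  apply le_of_forall_pos_le_add
  intro δ hδ
  set δ' : ℝ := δ / (A.card + 1) with hδ'
  have hc0 : (0 : ℝ) ≤ A.card := Nat.cast_nonneg _
  have hδ'0 : 0 < δ' := by positivity
  have hex : ∀ t : ℤ × ℤ, ∃ D : {D : ℤ // D ≠ 0}, MP K t - δ' < fP K t D := by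
    intro t
    exact exists_lt_of_lt_ciSup (by unfold MP; linarith)
  choose d hd using hex
  set Y := A.sup (fun t => (d t).1.natAbs) with hY
  set J := (Icc (-(Y : ℤ)) Y).filter (fun D => D ≠ 0) with hJ
  have h1 : ∀ t ∈ A, MP K t ≤ ∑ D ∈ J, (GP K D t / (D.natAbs : ℝ) ^ 2) + δ' := by
    intro t ht
    have h2 : (d t).1.natAbs ≤ Y := le_sup (f := fun t => (d t).1.natAbs) ht
    have h3 : (d t).1 ∈ J := by
      rw [hJ, mem_filter, mem_Icc]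
      exact ⟨by omega, (d t).2⟩
    have h4 := hd t
    have h5 : fP K t (d t) ≤ ∑ D ∈ J, (GP K D t / (D.natAbs : ℝ) ^ 2) :=
      single_le_sum (f := fun D : ℤ => (GP K D t / (D.natAbs : ℝ) ^ 2))
        (fun D _ => by have := GP_nonneg K D t; positivity) h3
    linarith
  have h4 : ∑ t ∈ A, ∑ D ∈ J, (GP K D t / (D.natAbs : ℝ) ^ 2) ≤
      ∑ D ∈ J, Q * ((2 * 8 ^ K : ℝ) ^ D.natAbs.primeFactors.card / (D.natAbs : ℝ) ^ 2) := by
    rw [sum_comm]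
    refine sum_le_sum fun D hD => ?_
    have hD0 : D ≠ 0 := (mem_filter.1 hD).2
    rw [← sum_div, mul_div_assoc']
    have h5 := hA D hD0
    gcongr
  have h5 : ∑ D ∈ J, ((2 * 8 ^ K : ℝ) ^ D.natAbs.primeFactors.card / (D.natAbs : ℝ) ^ 2) ≤
      2 * W := by
    have e1 : J ⊆ (Icc 1 Y).image (fun n : ℕ => (n : ℤ)) ∪
        (Icc 1 Y).image (fun n : ℕ => -(n : ℤ)) := by
      intro D hD
      rw [hJ, mem_filter, mem_Icc] at hD
      rw [mem_union, mem_image, mem_image]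
      rcases lt_or_gt_of_ne hD.2 with h | h
      · right
        exact ⟨D.natAbs, mem_Icc.2 ⟨by omega, by omega⟩, by omega⟩
      · left
        exact ⟨D.natAbs, mem_Icc.2 ⟨by omega, by omega⟩, by omega⟩
    refine (sum_le_sum_of_subset_of_nonneg e1 fun _ _ _ => by positivity).trans ?_
    have e0 := sum_union_inter (s₁ := (Icc 1 Y).image (fun n : ℕ => (n : ℤ)))
      (s₂ := (Icc 1 Y).image (fun n : ℕ => -(n : ℤ)))
      (f := fun D : ℤ => ((2 * 8 ^ K : ℝ) ^ D.natAbs.primeFactors.card / (D.natAbs : ℝ) ^ 2))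
    have e4 : 0 ≤ ∑ D ∈ (Icc 1 Y).image (fun n : ℕ => (n : ℤ)) ∩
        (Icc 1 Y).image (fun n : ℕ => -(n : ℤ)),
        ((2 * 8 ^ K : ℝ) ^ D.natAbs.primeFactors.card / (D.natAbs : ℝ) ^ 2) :=
      sum_nonneg fun _ _ => by positivity
    have e2 : ∑ D ∈ (Icc 1 Y).image (fun n : ℕ => (n : ℤ)),
        ((2 * 8 ^ K : ℝ) ^ D.natAbs.primeFactors.card / (D.natAbs : ℝ) ^ 2) ≤ W := by
      rw [sum_image (fun a _ b _ h => by simpa using h)]
      simp only [Int.natAbs_natCast]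
      exact hw Y
    have e3 : ∑ D ∈ (Icc 1 Y).image (fun n : ℕ => -(n : ℤ)),
        ((2 * 8 ^ K : ℝ) ^ D.natAbs.primeFactors.card / (D.natAbs : ℝ) ^ 2) ≤ W := by
      rw [sum_image (fun a _ b _ h => by simpa using h)]
      simp only [Int.natAbs_neg, Int.natAbs_natCast]
      exact hw Y
    linarith
  calc ∑ t ∈ A, MP K t ≤ ∑ t ∈ A, (∑ D ∈ J, (GP K D t / (D.natAbs : ℝ) ^ 2) + δ') :=
        sum_le_sum h1
    _ = ∑ t ∈ A, ∑ D ∈ J, (GP K D t / (D.natAbs : ℝ) ^ 2) + A.card * δ' := by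
        rw [sum_add_distrib, sum_const, nsmul_eq_mul]
    _ ≤ 2 * W * Q + δ := by
        refine add_le_add (h4.trans ?_) ?_
        · rw [← mul_sum]
          calc Q * _ ≤ Q * (2 * W) := mul_le_mul_of_nonneg_left h5 hQ
            _ = _ := by ring
        · rw [hδ', mul_div_assoc', div_le_iff₀ (by positivity)]
          nlinarith

/-- the suprema outside of the exceptional set -/
theorem sup_out (K : ℕ) (hK : 1 ≤ K) : ∃ T : Finset (Fin 3 → ℝ), (∀ t ∈ T, ∀ j, 0 < t j) ∧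
    (∀ t ∈ T, 1 < ∏ j, t j) ∧ ∀ L : ℕ, ∃ C : ℝ, 0 ≤ C ∧ ∀ (N1 N2 : ℤ) (X : ℕ), 1 ≤ X →
    N1.natAbs ≤ X ^ L → N2.natAbs ≤ X ^ L →
    ∑ t ∈ (Sq N1 N2 X).filter (fun t => t ∉ Z T N1 N2 X), MP K t ≤ C * (Sq N1 N2 X).card := by
  classical
  obtain ⟨T, hT1, hT2, hT⟩ := mom_out K hK
  obtain ⟨W, hW, hw⟩ := FinP.som8 K
  refine ⟨T, hT1, hT2, fun L => ?_⟩
  obtain ⟨C, hC, h⟩ := hT L
  refine ⟨2 * W * C, by positivity, fun N1 N2 X hX hN1 hN2 => ?_⟩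
  have h1 := sup_of K ((Sq N1 N2 X).filter (fun t => t ∉ Z T N1 N2 X))
    (C * (Sq N1 N2 X).card) (by positivity) (fun D hD => by
      refine (h D N1 N2 X hD hX hN1 hN2).trans (le_of_eq ?_)
      ring) hw
  refine h1.trans (le_of_eq ?_)
  ring

end Pool.Agent.TH342.TU
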