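import Pool.Agent.TH344.DT.Tur

/-!
# The normal order of the number of the prime factors in short intervals
-/

set_option autoImplicit false

namespace Pool.Agent.TH342.TU

open Finset Filter

open Pool.Agent.TH344.DT.Tur (Q L L_nonneg L_tendsto)

/-- the number of the prime factors up to the square root of `X` -/
def o (X : ℕ) (n : ℤ) : ℕ := ((Q X).filter (fun p : ℕ => (p : ℤ) ∣ n)).card

lemma o_eq (X : ℕ) (n : ℤ) : (o X n : ℝ) = ∑ p ∈ Q X, if (p : ℤ) ∣ n then (1 : ℝ) else 0 := by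
  unfold o
  rw [sum_ite, sum_const_zero, add_zero, sum_const, nsmul_eq_mul, mul_one]

lemma card_Q (X : ℕ) : (Q X).card ≤ Nat.sqrt X := by
  have h1 : Q X ⊆ Ioc 0 (Nat.sqrt X) := by
    intro p hp
    unfold Q at hp
    rw [mem_filter, mem_range] at hp
    rw [mem_Ioc]
    exact ⟨hp.2.pos, by omega⟩
  have := card_le_card h1
  rwa [Nat.card_Ioc, Nat.sub_zero] at this

/-- the number of the multiples of `d` in an interval -/
lemma ind (N : ℤ) (X d : ℕ) (hd : 0 < d) :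
    (X : ℝ) / d - 1 ≤ ∑ n ∈ Ioc N (N + X), (if (d : ℤ) ∣ n then (1 : ℝ) else 0) ∧
    ∑ n ∈ Ioc N (N + X), (if (d : ℤ) ∣ n then (1 : ℝ) else 0) ≤ (X : ℝ) / d + 1 := by
  have hd' : (0 : ℤ) < d := by exact_mod_cast hd
  have hdq : (0 : ℚ) < d := by exact_mod_cast hd
  have h0 : ∑ n ∈ Ioc N (N + X), (if (d : ℤ) ∣ n then (1 : ℝ) else 0) =
      (((Ioc N (N + X)).filter (fun n => (d : ℤ) ∣ n)).card : ℝ) := by
    rw [sum_ite, sum_const_zero, add_zero, sum_const, nsmul_eq_mul, mul_one]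
  rw [h0]
  have h1 := Int.Ioc_filter_dvd_card N (N + X) hd'
  have h2 : ((((Ioc N (N + X)).filter (fun n => (d : ℤ) ∣ n)).card : ℤ) : ℚ) =
      ((max (⌊((N + X : ℤ) : ℚ) / ((d : ℤ) : ℚ)⌋ - ⌊((N : ℤ) : ℚ) / ((d : ℤ) : ℚ)⌋) 0 : ℤ) : ℚ) := by
    exact_mod_cast congrArg (fun z : ℤ => (z : ℚ)) h1
  push_cast at h2
  have a1 := Int.floor_le (((N : ℚ) + X) / d)
  have a2 := Int.lt_floor_add_one (((N : ℚ) + X) / d)
  have a3 := Int.floor_le ((N : ℚ) / d)
  have a4 := Int.lt_floor_add_one ((N : ℚ) / d)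
  have a5 : ((N : ℚ) + X) / d = (N : ℚ) / d + (X : ℚ) / d := add_div _ _ _
  have a6 : (0 : ℚ) ≤ (X : ℚ) / d := by positivity
  have b1 : (X : ℚ) / d - 1 ≤ (((Ioc N (N + X)).filter (fun n => (d : ℤ) ∣ n)).card : ℚ) := by
    rw [h2]
    refine le_trans ?_ (le_max_left _ _)
    linarith
  have b2 : (((Ioc N (N + X)).filter (fun n => (d : ℤ) ∣ n)).card : ℚ) ≤ (X : ℚ) / d + 1 := by
    rw [h2]
    refine max_le ?_ ?_
    · linarith
    · linarith
  constructor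
  · have : (((X : ℚ) / d - 1 : ℚ) : ℝ) ≤
        (((((Ioc N (N + X)).filter (fun n => (d : ℤ) ∣ n)).card : ℚ)) : ℝ) := by exact_mod_cast b1
    push_cast at this
    exact this
  · have : (((((Ioc N (N + X)).filter (fun n => (d : ℤ) ∣ n)).card : ℚ)) : ℝ) ≤
        (((X : ℚ) / d + 1 : ℚ) : ℝ) := by exact_mod_cast b2
    push_cast at this
    exact this

lemma pos_Q {X p : ℕ} (hp : p ∈ Q X) : 0 < p := by
  unfold Q at hp
  rw [mem_filter] at hp
  exact hp.2.pos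

lemma sum_o_ge (N : ℤ) (X : ℕ) :
    (X : ℝ) * L X - (Nat.sqrt X) ≤ ∑ n ∈ Ioc N (N + X), (o X n : ℝ) := by
  simp only [o_eq]
  rw [sum_comm]
  have h1 : ((Q X).card : ℝ) ≤ Nat.sqrt X := by exact_mod_cast card_Q X
  have h2 : ∑ p ∈ Q X, ((X : ℝ) * (1 / p) - 1) ≤
      ∑ p ∈ Q X, ∑ n ∈ Ioc N (N + X), (if (p : ℤ) ∣ n then (1 : ℝ) else 0) := by
    refine sum_le_sum fun p hp => ?_
    rw [mul_one_div]
    exact (ind N X p (pos_Q hp)).1
  rw [sum_sub_distrib, sum_const, nsmul_eq_mul, mul_one, ← mul_sum] at h2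
  unfold L
  linarith

lemma sum_o_sq (N : ℤ) (X : ℕ) : ∑ n ∈ Ioc N (N + X), (o X n : ℝ) ^ 2 ≤
    X * L X ^ 2 + X * L X + X := by
  have h1 : ∑ n ∈ Ioc N (N + X), (o X n : ℝ) ^ 2 =
      ∑ p ∈ Q X, ∑ q ∈ Q X, ∑ n ∈ Ioc N (N + X),
        (if (p : ℤ) ∣ n ∧ (q : ℤ) ∣ n then (1 : ℝ) else 0) := by
    simp only [o_eq]
    have : ∀ n : ℤ, (∑ p ∈ Q X, if (p : ℤ) ∣ n then (1 : ℝ) else 0) ^ 2 =
        ∑ p ∈ Q X, ∑ q ∈ Q X, (if (p : ℤ) ∣ n ∧ (q : ℤ) ∣ n then (1 : ℝ) else 0) := by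
      intro n
      rw [sq, sum_mul_sum]
      refine sum_congr rfl fun p _ => sum_congr rfl fun q _ => ?_
      by_cases h1 : (p : ℤ) ∣ n <;> by_cases h2 : (q : ℤ) ∣ n <;> simp [h1, h2]
    simp only [this]
    rw [sum_comm]
    refine sum_congr rfl fun p _ => ?_
    rw [sum_comm]
  rw [h1]
  have h2 : ∀ p ∈ Q X, ∀ q ∈ Q X, ∑ n ∈ Ioc N (N + X),
      (if (p : ℤ) ∣ n ∧ (q : ℤ) ∣ n then (1 : ℝ) else 0) ≤
      ((X : ℝ) * (1 / p) * (1 / q) + (if p = q then (X : ℝ) * (1 / p) else 0)) + 1 := by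
    intro p hp q hq
    have hp' := pos_Q hp
    have hq' := pos_Q hq
    unfold Q at hp hq
    rw [mem_filter] at hp hq
    by_cases hpq : p = q
    · subst hpq
      rw [if_pos rfl]
      simp only [and_self]
      have h3 := (ind N X p hp').2
      have h4 : (0 : ℝ) ≤ (X : ℝ) * (1 / p) * (1 / p) := by positivity
      have h5 : (X : ℝ) * (1 / p) = (X : ℝ) / p := mul_one_div _ _
      linarith
    · rw [if_neg hpq, add_zero]
      have h3 : ∀ n : ℤ, ((p : ℤ) ∣ n ∧ (q : ℤ) ∣ n) ↔ ((p * q : ℕ) : ℤ) ∣ n := by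
        intro n
        rw [Int.natCast_dvd, Int.natCast_dvd, Int.natCast_dvd]
        exact ⟨fun h => Nat.Coprime.mul_dvd_of_dvd_of_dvd
            ((Nat.coprime_primes hp.2 hq.2).2 hpq) h.1 h.2,
          fun h => ⟨(dvd_mul_right _ _).trans h, (dvd_mul_left _ _).trans h⟩⟩
      simp only [h3]
      refine (ind N X (p * q) (Nat.mul_pos hp' hq')).2.trans (le_of_eq ?_)
      push_cast
      have hp0 : (p : ℝ) ≠ 0 := by exact_mod_cast hp'.ne'
      have hq0 : (q : ℝ) ≠ 0 := by exact_mod_cast hq'.ne'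
      field_simp
  refine (sum_le_sum fun p hp => sum_le_sum fun q hq => h2 p hp q hq).trans ?_
  simp only [sum_add_distrib]
  have e1 : ∑ p ∈ Q X, ∑ q ∈ Q X, (X : ℝ) * (1 / p) * (1 / q) = X * L X ^ 2 := by
    unfold L
    rw [sq, sum_mul_sum, mul_sum]
    refine sum_congr rfl fun p _ => ?_
    rw [mul_sum]
    exact sum_congr rfl fun q _ => by ring
  have e2 : ∑ p ∈ Q X, ∑ q ∈ Q X, (if p = q then (X : ℝ) * (1 / p) else 0) = X * L X := by
    unfold L
    rw [mul_sum]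
    refine sum_congr rfl fun p hp => ?_
    rw [sum_ite_eq, if_pos hp]
  have e3 : ∑ _p ∈ Q X, ∑ _q ∈ Q X, (1 : ℝ) ≤ X := by
    rw [sum_const, sum_const, nsmul_eq_mul, nsmul_eq_mul, mul_one]
    have h3 : (Q X).card * (Q X).card ≤ X :=
      (Nat.mul_le_mul (card_Q X) (card_Q X)).trans (Nat.sqrt_le X)
    exact_mod_cast h3
  rw [e1, e2]
  linarith

/-- Turan's inequality in short intervals -/
lemma turan (N : ℤ) (X : ℕ) :
    ∑ n ∈ Ioc N (N + X), ((o X n : ℝ) - L X) ^ 2 ≤ 3 * X * L X + X := by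
  have h1 := sum_o_ge N X
  have h2 := sum_o_sq N X
  have h0 := L_nonneg X
  have h3 : ∑ n ∈ Ioc N (N + X), ((o X n : ℝ) - L X) ^ 2 = ∑ n ∈ Ioc N (N + X), (o X n : ℝ) ^ 2 -
      2 * L X * ∑ n ∈ Ioc N (N + X), (o X n : ℝ) + X * L X ^ 2 := by
    have h4 : ∀ n : ℤ, ((o X n : ℝ) - L X) ^ 2 = (o X n : ℝ) ^ 2 - 2 * L X * (o X n : ℝ) +
      L X ^ 2 := fun n => by ring
    simp only [h4]
    rw [sum_add_distrib, sum_sub_distrib, ← mul_sum, sum_const, Int.card_Ioc,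
      add_sub_cancel_left, Int.toNat_natCast, nsmul_eq_mul]
  rw [h3]
  have h5 : ((Nat.sqrt X : ℕ) : ℝ) ≤ X := by exact_mod_cast Nat.sqrt_le_self X
  have h6 : 2 * L X * ((X : ℝ) * L X - (Nat.sqrt X)) ≤
      2 * L X * ∑ n ∈ Ioc N (N + X), (o X n : ℝ) :=
    mul_le_mul_of_nonneg_left h1 (by positivity)
  have h7 : 2 * L X * (Nat.sqrt X : ℝ) ≤ 2 * L X * X :=
    mul_le_mul_of_nonneg_left h5 (by positivity)
  nlinarith

open Classical in
/-- the integers of the interval with an unusual number of prime factors -/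
noncomputable def S (N : ℤ) (X : ℕ) (δ : ℝ) : Finset ℤ :=
  (Ioc N (N + X)).filter (fun n => n ≠ 0 ∧ δ * L X < |(n.natAbs.primeFactors.card : ℝ) - L X|)

lemma o_le (X : ℕ) (n : ℤ) (hn : n ≠ 0) : o X n ≤ n.natAbs.primeFactors.card := by
  apply card_le_card
  intro p hp
  unfold Q at hp
  rw [mem_filter, mem_filter] at hp
  rw [Nat.mem_primeFactors]
  exact ⟨hp.1.2, Int.natCast_dvd.1 hp.2, Int.natAbs_ne_zero.2 hn⟩

lemma le_o {X B : ℕ} {n : ℤ} (hn : n ≠ 0) (hX : 2 ≤ X) (hB : n.natAbs ≤ X ^ B) :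
    n.natAbs.primeFactors.card ≤ o X n + 2 * B := by
  classical
  set P := n.natAbs.primeFactors.filter (fun p => p ∉ Q X) with hP
  have h1 : n.natAbs.primeFactors ⊆ (Q X).filter (fun p : ℕ => (p : ℤ) ∣ n) ∪ P := by
    intro p hp
    rw [mem_union, mem_filter, hP, mem_filter]
    by_cases h : p ∈ Q X
    · exact Or.inl ⟨h, Int.natCast_dvd.2 (Nat.dvd_of_mem_primeFactors hp)⟩
    · exact Or.inr ⟨hp, h⟩
  refine (card_le_card h1).trans ((card_union_le _ _).trans (Nat.add_le_add_left ?_ _))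
  have h2 : ∏ p ∈ P, p ∣ n.natAbs :=
    (prod_dvd_prod_of_subset _ _ _ (filter_subset _ _)).trans (Nat.prod_primeFactors_dvd _)
  have h3 : ∏ p ∈ P, p ≤ X ^ B := (Nat.le_of_dvd (Int.natAbs_pos.2 hn) h2).trans hB
  have h4 : ∀ p ∈ P, X ≤ p ^ 2 := by
    intro p hp
    rw [hP, mem_filter] at hp
    have h5 : Nat.sqrt X + 1 ≤ p := by
      by_contra h
      exact hp.2 (by
        unfold Q
        rw [mem_filter, mem_range]
        exact ⟨by omega, Nat.prime_of_mem_primeFactors hp.1⟩)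
    have h6 : X < (Nat.sqrt X + 1) * (Nat.sqrt X + 1) := Nat.lt_succ_sqrt X
    have h7 : (Nat.sqrt X + 1) * (Nat.sqrt X + 1) ≤ p * p := Nat.mul_le_mul h5 h5
    rw [sq]
    omega
  have h5 : X ^ P.card ≤ (∏ p ∈ P, p) ^ 2 := by
    rw [← prod_pow]
    exact (prod_const X).symm.le.trans (prod_le_prod' h4)
  have h6 : X ^ P.card ≤ X ^ (2 * B) := by
    refine h5.trans ((Nat.pow_le_pow_left h3 2).trans (le_of_eq ?_))
    rw [← pow_mul, mul_comm]
  exact (Nat.pow_le_pow_iff_right (by omega)).1 h6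

lemma card_S {N : ℤ} {X B : ℕ} (hX : 2 ≤ X) (hN : ∀ n ∈ Ioc N (N + X), n.natAbs ≤ X ^ B)
    {δ : ℝ} (hδ : 0 < δ) (hL : 4 * B ≤ δ * L X) (hL1 : 1 ≤ L X) :
    ((S N X δ).card : ℝ) * (δ ^ 2 * L X) ≤ 16 * X := by
  have hL0 : 0 < L X := by linarith
  have h1 : ((S N X δ).card : ℝ) * (δ * L X / 2) ^ 2 ≤ 4 * X * L X := by
    refine le_trans ?_ ((turan N X).trans ?_)
    · rw [← nsmul_eq_mul, ← sum_const]
      refine le_trans (sum_le_sum (g := fun n => ((o X n : ℝ) - L X) ^ 2) fun n hn => ?_) ?_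
      · unfold S at hn
        rw [mem_filter] at hn
        have h2 := o_le X n hn.2.1
        have h3 := le_o hn.2.1 hX (hN n hn.1)
        have h2' : (o X n : ℝ) ≤ n.natAbs.primeFactors.card := by exact_mod_cast h2
        have h3' : (n.natAbs.primeFactors.card : ℝ) ≤ o X n + 2 * B := by exact_mod_cast h3
        have h4 : δ * L X / 2 ≤ |(o X n : ℝ) - L X| := by
          have h5 : |(n.natAbs.primeFactors.card : ℝ) - L X| ≤
              |(o X n : ℝ) - L X| + |(n.natAbs.primeFactors.card : ℝ) - o X n| := by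
            have := abs_add_le ((o X n : ℝ) - L X) ((n.natAbs.primeFactors.card : ℝ) - o X n)
            have e : (o X n : ℝ) - L X + ((n.natAbs.primeFactors.card : ℝ) - o X n) =
              (n.natAbs.primeFactors.card : ℝ) - L X := by ring
            rwa [e] at this
          have h6 : |(n.natAbs.primeFactors.card : ℝ) - o X n| ≤ 2 * B := by
            rw [abs_le]
            constructor <;> linarith
          linarith [hn.2.2]
        rw [← sq_abs ((o X n : ℝ) - L X)]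
        exact pow_le_pow_left₀ (by positivity) h4 2
      · refine sum_le_sum_of_subset_of_nonneg (filter_subset _ _) fun n _ _ => sq_nonneg _
    · have : (X : ℝ) ≤ X * L X := le_mul_of_one_le_right (Nat.cast_nonneg _) hL1
      linarith
  have h2 : ((S N X δ).card : ℝ) * (δ ^ 2 * L X) * L X ≤ 16 * X * L X := by nlinarith
  exact le_of_mul_le_mul_right h2 hL0

/-- **the normal order** -/
theorem small (B : ℕ) (δ : ℝ) (hδ : 0 < δ) (ε : ℝ) (hε : 0 < ε) : ∃ X0 : ℕ, ∀ X, X0 ≤ X →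
    ∀ N : ℤ, (∀ n ∈ Ioc N (N + X), n.natAbs ≤ X ^ B) → ((S N X δ).card : ℝ) ≤ ε * X := by
  have h1 := L_tendsto.eventually_ge_atTop (4 * B / δ)
  have h2 := L_tendsto.eventually_ge_atTop (16 / (ε * δ ^ 2))
  have h3 := L_tendsto.eventually_ge_atTop 1
  obtain ⟨X0, hX0⟩ := ((h1.and h2).and (h3.and (eventually_ge_atTop 2))).exists_forall_of_atTop
  refine ⟨X0, fun X hX N hN => ?_⟩
  obtain ⟨⟨h1, h2⟩, h3, h4⟩ := hX0 X hX
  have h5 : 4 * B ≤ δ * L X := by
    rw [div_le_iff₀ hδ] at h1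
    linarith
  have h6 := card_S h4 hN hδ h5 h3
  have h7 : 16 ≤ L X * (ε * δ ^ 2) := by
    rwa [div_le_iff₀ (by positivity)] at h2
  have hL : 0 < L X := by linarith
  have h8 : ((S N X δ).card : ℝ) * (δ ^ 2 * L X) ≤ ε * X * (δ ^ 2 * L X) := by
    have : (16 : ℝ) * X ≤ L X * (ε * δ ^ 2) * X := mul_le_mul_of_nonneg_right h7 (by positivity)
    calc _ ≤ 16 * (X : ℝ) := h6
      _ ≤ L X * (ε * δ ^ 2) * X := this
      _ = _ := by ring
  exact le_of_mul_le_mul_right h8 (by positivity)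

end Pool.Agent.TH342.TU
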